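import Pool.Agent.Work.MP_59976d_co_even.Basic
import Pool.Agent.Work.MP_59976d_co_even.Interface
import Pool.Agent.Work.MP_59976d_co_odd.LC

/-!
Block LCaseE: fibres over a subgroup of odd prime order, when the group has one involution.
-/

namespace Pool.Agent.Work.MP_59976d_co

open Finset
open scoped Pointwise

universe u

namespace LCE

set_option linter.unusedSectionVars false

variable {G : Type u} [AddCommGroup G] [Finite G] [DecidableEq G]

/-- elements of order at most two of the quotient by a subgroup of odd order lift -/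
lemma lift_two {L : AddSubgroup G} (hodd : Odd (Nat.card L)) {x : G ⧸ L} (hx : x + x = 0) :
    ∃ g : G, (QuotientAddGroup.mk g : G ⧸ L) = x ∧ g + g = 0 := by
  obtain ⟨g, rfl⟩ := QuotientAddGroup.mk_surjective x
  rw [← QuotientAddGroup.mk_add, QuotientAddGroup.eq_zero_iff] at hx
  obtain ⟨m, hm⟩ := hodd
  have h1 : Nat.card L • (g + g) = 0 := by
    have h2 : Nat.card L • (⟨g + g, hx⟩ : L) = 0 := card_nsmul_eq_zero'
    have h3 : ((Nat.card L • (⟨g + g, hx⟩ : L) : L) : G) = 0 := by rw [h2]; rfl
    rw [AddSubgroup.coe_nsmul] at h3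
    exact h3
  refine ⟨g + m • (g + g), ?_, ?_⟩
  · rw [QuotientAddGroup.eq]
    have h4 : -(g + m • (g + g)) + g = -(m • (g + g)) := by abel
    rw [h4]
    exact L.neg_mem (L.nsmul_mem hx m)
  · have h5 : g + m • (g + g) + (g + m • (g + g)) =
        (m • (g + g) + m • (g + g)) + (g + g) := by abel
    rw [h5, ← add_nsmul, ← two_mul, ← succ_nsmul, ← hm]
    exact h1

lemma part_add_sigma {L : AddSubgroup G} {σ : G} (h2 : σ + σ = 0) (A : Finset G) (i : G ⧸ L) {a : G}
    (ha : a ∈ part L A (i + QuotientAddGroup.mk σ)) :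
    (QuotientAddGroup.mk (a + σ) : G ⧸ L) = i := by
  rw [mem_part] at ha
  rw [QuotientAddGroup.mk_add, ha.2, add_assoc, ← QuotientAddGroup.mk_add, h2,
    QuotientAddGroup.mk_zero, add_zero]

/-- the two neighbouring fibres of a set without pairs `a, a + σ` -/
lemma part_add_part_le {L : AddSubgroup G} {σ : G} (h2 : σ + σ = 0) {A : Finset G}
    (hA : ∀ a ∈ A, a + σ ∉ A) (i : G ⧸ L) :
    (part L A i).card + (part L A (i + QuotientAddGroup.mk σ)).card ≤ Nat.card L := by
  set U := part L A i ∪ (part L A (i + QuotientAddGroup.mk σ)).image (fun a => a + σ) with hU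
  have hdisj : Disjoint (part L A i)
      ((part L A (i + QuotientAddGroup.mk σ)).image (fun a => a + σ)) := by
    rw [Finset.disjoint_left]
    intro x hx hx'
    rw [mem_image] at hx'
    obtain ⟨a, ha, rfl⟩ := hx'
    exact hA a (mem_part.1 ha).1 (mem_part.1 hx).1
  have hcard : U.card = (part L A i).card + (part L A (i + QuotientAddGroup.mk σ)).card := by
    rw [hU, card_union_of_disjoint hdisj, card_image_of_injective _ (add_left_injective σ)]
  have hpart : part L U i = U := by
    ext x
    rw [mem_part]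
    refine ⟨fun h => h.1, fun h => ⟨h, ?_⟩⟩
    rw [hU, mem_union, mem_image] at h
    rcases h with h | ⟨a, ha, rfl⟩
    · exact (mem_part.1 h).2
    · exact part_add_sigma h2 A i ha
  rw [← hcard, ← hpart]
  exact card_part_le L U i

/-- the two neighbouring fibres of a set meeting all pairs `g, g + σ` -/
lemma le_part_add_part {L : AddSubgroup G} {σ : G} (h2 : σ + σ = 0) {C : Finset G}
    (hC : ∀ g : G, g ∈ C ∨ g + σ ∈ C) (i : G ⧸ L) :
    Nat.card L ≤ (part L C i).card + (part L C (i + QuotientAddGroup.mk σ)).card := by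
  obtain ⟨g, rfl⟩ := QuotientAddGroup.mk_surjective i
  have h1 : Nat.card L ≤ (hull L {g}).card := card_le_hull L (singleton_nonempty g)
  refine h1.trans ?_
  rw [← card_image_of_injective (part L C (QuotientAddGroup.mk g + QuotientAddGroup.mk σ))
    (add_left_injective σ)]
  refine (card_le_card ?_).trans (card_union_le _ _)
  intro x hx
  rw [mem_hull] at hx
  obtain ⟨y, hy, hxy⟩ := hx
  rw [mem_singleton] at hy
  subst hy
  have hmk : (QuotientAddGroup.mk x : G ⧸ L) = QuotientAddGroup.mk y := by
    rw [eq_comm, QuotientAddGroup.eq]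
    have : -y + x = x - y := by abel
    rwa [this]
  rw [mem_union, mem_image]
  rcases hC x with h | h
  · left
    rw [mem_part]
    exact ⟨h, hmk⟩
  · right
    refine ⟨x + σ, ?_, by rw [add_assoc, h2, add_zero]⟩
    rw [mem_part, QuotientAddGroup.mk_add, hmk]
    exact ⟨h, rfl⟩

/-- a fibre over `k` with few restricted sums contains a lost double -/
lemma exists_lost {L : AddSubgroup G} (hL : (Nat.card L).Prime) {A B : Finset G} {k : G ⧸ L}
    (hi : 1 ≤ (part L A k).card) (hj : 1 ≤ (part L B k).card)
    (hlt : (part L (rs A B) (k + k)).card <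
      min (Nat.card L) ((part L A k).card + (part L B k).card - 1)) :
    ∃ d ∈ A, d ∈ B ∧ d + d ∉ rs A B ∧ (QuotientAddGroup.mk d : G ⧸ L) = k := by
  by_contra hcon
  push Not at hcon
  have : Fact (Nat.card L).Prime := ⟨hL⟩
  obtain ⟨f, hf, hfL⟩ := exists_zmod_hom L hL
  obtain ⟨g, rfl⟩ := QuotientAddGroup.mk_surjective k
  rw [← card_pullf hf hfL] at hi hj
  rw [← card_pullf hf hfL, ← card_pullf hf hfL, ← QuotientAddGroup.mk_add,
    ← card_pullf hf hfL (g + g)] at hlt
  have h1 := ZMod.cauchy_davenport hL (card_pos.1 hi) (card_pos.1 hj)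
  have h2 : (pullf f g A + pullf f g B).card ≤ (pullf f (g + g) (rs A B)).card := by
    apply card_le_card
    intro z hz
    rw [mem_add] at hz
    obtain ⟨s, hs, t, ht, rfl⟩ := hz
    rw [mem_pullf] at hs ht ⊢
    by_cases hst : s = t
    · subst hst
      have hmk : (QuotientAddGroup.mk (g + f s) : G ⧸ L) = QuotientAddGroup.mk g := by
        rw [eq_comm, QuotientAddGroup.eq, neg_add_cancel_left, hfL]
        exact ⟨s, rfl⟩
      by_contra hlost
      refine hcon (g + f s) hs ht ?_ hmk
      rw [map_add] at hlost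
      have e : g + f s + (g + f s) = g + g + (f s + f s) := by abel
      rwa [e]
    · rw [mem_rs]
      refine ⟨g + f s, hs, g + f t, ht, fun h => hst (hf (add_left_cancel h)), ?_⟩
      rw [map_add]; abel
  omega

/-- the inequality in the coset of the subgroup `L + ⟨σ⟩` -/
lemma QM {L : AddSubgroup G} {σ : G} (h2 : σ + σ = 0) (hσ : σ ∉ L)
    (hM : ∀ M : AddSubgroup G, M ≠ ⊤ → RestrictedScherk M)
    (hcard : Nat.card G ≠ 2 * Nat.card L) {A B : Finset G} {d : G} (hdA : d ∈ A) (hdB : d ∈ B)
    (hu : ∀ a ∈ A, d + d - a ∈ B → a = d) {k : G ⧸ L} (hk : QuotientAddGroup.mk d = k) :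
    (part L A k).card + (part L A (k + QuotientAddGroup.mk σ)).card +
      ((part L B k).card + (part L B (k + QuotientAddGroup.mk σ)).card) ≤
      (part L (rs A B) (k + k)).card +
        (part L (rs A B) (k + k + QuotientAddGroup.mk σ)).card + 3 := by
  classical
  set τ : G ⧸ L := QuotientAddGroup.mk σ with hτ
  have hτ2 : τ + τ = 0 := by rw [hτ, ← QuotientAddGroup.mk_add, h2, QuotientAddGroup.mk_zero]
  have hτ0 : τ ≠ 0 := by
    rw [hτ, Ne, QuotientAddGroup.eq_zero_iff]
    exact hσ
  set M : AddSubgroup G := (AddSubgroup.zmultiples τ).comap (QuotientAddGroup.mk' L) with hMdef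
  have hmemM : ∀ g : G, g ∈ M ↔ (QuotientAddGroup.mk g : G ⧸ L) = 0 ∨
      (QuotientAddGroup.mk g : G ⧸ L) = τ := by
    intro g
    rw [hMdef, AddSubgroup.mem_comap, mem_zm hτ2]
    rfl
  have hMtop : M ≠ ⊤ := by
    intro htop
    apply hcard
    have h3 : AddSubgroup.zmultiples τ = ⊤ := by
      rw [eq_top_iff]
      intro x _
      obtain ⟨g, rfl⟩ := QuotientAddGroup.mk_surjective x
      rw [mem_zm hτ2, ← hmemM, htop]
      exact AddSubgroup.mem_top g
    have h4 : Nat.card (G ⧸ L) = 2 := by
      rw [← card_zm hτ0 hτ2, h3, AddSubgroup.card_top]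
    rw [AddSubgroup.card_eq_card_quotient_mul_card_addSubgroup L, h4]
  -- the pair recentred at `d`, inside `M`
  have hAB := adm_tr hdA hdB hu
  set A' := (tr d A).filter (fun a => a ∈ M) with hA'
  set B' := (tr d B).filter (fun a => a ∈ M) with hB'
  have hadm : Adm A' B' := by
    refine ⟨mem_filter.2 ⟨hAB.zA, M.zero_mem⟩, mem_filter.2 ⟨hAB.zB, M.zero_mem⟩, ?_⟩
    intro a ha hb
    exact hAB.uniq a (mem_filter.1 ha).1 (mem_filter.1 hb).1
  have hinj := of_injective (hM M hMtop) M.subtype (AddSubgroup.subtype_injective M) A' B' hadm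
    (fun a ha => ⟨⟨a, (mem_filter.1 ha).2⟩, rfl⟩) (fun b hb => ⟨⟨b, (mem_filter.1 hb).2⟩, rfl⟩)
  -- cardinalities
  have hne : ∀ x : G ⧸ L, x ≠ x + τ := fun x h => hτ0 (by simpa using h)
  have hcount : ∀ (X : Finset G) (e : G), ((tr e X).filter (fun a => a ∈ M)).card =
      (part L X (QuotientAddGroup.mk e)).card + (part L X (QuotientAddGroup.mk e + τ)).card := by
    intro X e
    have hsplit : (tr e X).filter (fun a => a ∈ M) =
        tr e (part L X (QuotientAddGroup.mk e) ∪ part L X (QuotientAddGroup.mk e + τ)) := by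
      ext x
      rw [mem_filter, mem_tr, mem_tr, mem_union, mem_part, mem_part, hmemM,
        QuotientAddGroup.mk_add]
      constructor
      · rintro ⟨h3, h4 | h4⟩
        · left; exact ⟨h3, by rw [h4, zero_add]⟩
        · right; exact ⟨h3, by rw [h4, add_comm]⟩
      · rintro (⟨h3, h4⟩ | ⟨h3, h4⟩)
        · exact ⟨h3, Or.inl (by simpa using h4)⟩
        · refine ⟨h3, Or.inr ?_⟩
          rw [add_comm] at h4
          exact add_left_cancel h4
    rw [hsplit, card_tr, card_union_of_disjoint]
    rw [Finset.disjoint_left]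
    intro x hx hx'
    rw [mem_part] at hx hx'
    exact hne _ (hx.2.symm.trans hx'.2)
  have hsub : rs A' B' ⊆ (tr (d + d) (rs A B)).filter (fun a => a ∈ M) := by
    intro x hx
    rw [mem_rs] at hx
    obtain ⟨a, ha, b, hb, hab, rfl⟩ := hx
    rw [hA', mem_filter] at ha
    rw [hB', mem_filter] at hb
    rw [mem_filter, ← rs_tr]
    exact ⟨mem_rs.2 ⟨a, ha.1, b, hb.1, hab, rfl⟩, M.add_mem ha.2 hb.2⟩
  have h5 := card_le_card hsub
  rw [hcount (rs A B) (d + d), QuotientAddGroup.mk_add, hk] at h5
  have h6 : A'.card = (part L A k).card + (part L A (k + τ)).card := by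
    rw [hA', hcount A d, hk]
  have h7 : B'.card = (part L B k).card + (part L B (k + τ)).card := by
    rw [hB', hcount B d, hk]
  omega

/-- (LvE1) with one more hypothesis: neighbouring fibres fit in one coset. -/
def LvE1p : Prop :=
  ∀ (R : Type u) [AddCommGroup R] [Fintype R] [DecidableEq R], LL R →
    ∀ τ : R, τ ≠ 0 → τ + τ = 0 → (∀ x : R, x + x = 0 → x = 0 ∨ x = τ) →
    ∀ (P n : ℕ) (α β γ : R → ℕ), (∀ i, α i ≤ P) → (∀ i, β i ≤ P) →
      (∀ i, α i + α (i + τ) ≤ P) →
      2 ≤ n → α 0 = n → β 0 = n → γ 0 + 3 = 2 * n → 2 * n ≤ P + 1 →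
      (∀ i j, i ≠ j → 1 ≤ α i → 1 ≤ β j → min P (α i + β j - 1) ≤ γ (i + j)) →
      (∀ i, i ≠ 0 → i ≠ τ → 1 ≤ α i → 1 ≤ β i → min P (α i + β i - 3) ≤ γ (i + i)) →
      α τ + β τ ≤ γ τ →
      (1 ≤ α τ → 1 ≤ β τ → α τ + β τ + 1 ≤ 2 * n ∨ (α τ = n ∧ β τ = n)) →
      ∑ i ∈ univ.erase 0, (α i + β i) ≤ ∑ i ∈ univ.erase 0, γ i

end LCE

open LCE

/-- Block LCaseE. -/
theorem stmt_LCaseE_p (hE1 : LvE1p.{u}) (hE0 : Stmt_LvE0.{u}) (hZ : Stmt_LvZ.{u})
    (hH6 : Stmt_H6.{u}) : Stmt_LCaseE.{u} := by
  intro G _ _ _ hsub hquo A B σ core L hL hL2 hG i j hi hj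
  classical
  by_cases hij : i = j
  swap
  · exact part_cd L hL A B i j hij hi hj
  subst hij
  by_contra hlt
  have : Fintype (G ⧸ L) := Fintype.ofFinite _
  have hLodd : Odd (Nat.card L) := hL.odd_of_ne_two hL2
  have hLbot : L ≠ ⊥ := by
    rintro rfl
    rw [AddSubgroup.card_bot] at hL
    exact Nat.not_prime_one hL
  have hR : LL (G ⧸ L) := hquo L hLbot
  have hσL : σ ∉ L := by
    intro h
    have h1 : addOrderOf (⟨σ, h⟩ : L) ∣ Nat.card L := addOrderOf_dvd_natCard _
    have h2 : addOrderOf (⟨σ, h⟩ : L) = 2 := by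
      apply addOrderOf_eq_prime
      · rw [two_nsmul]
        ext
        exact core.two
      · intro h3
        exact core.ne (congrArg (fun y : L => (y : G)) h3)
    rw [h2] at h1
    obtain ⟨m, hm⟩ := hLodd
    omega
  set p := Nat.card L with hp
  set τ : G ⧸ L := QuotientAddGroup.mk σ with hτ
  have hτ2 : τ + τ = 0 := by
    rw [hτ, ← QuotientAddGroup.mk_add, core.two, QuotientAddGroup.mk_zero]
  have hτ0 : τ ≠ 0 := by
    rw [hτ, Ne, QuotientAddGroup.eq_zero_iff]
    exact hσL
  have huniq : ∀ x : G ⧸ L, x + x = 0 → x = 0 ∨ x = τ := by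
    intro x hx
    obtain ⟨g, rfl, hg⟩ := lift_two hLodd hx
    rcases core.uniq g hg with rfl | rfl
    · left; exact QuotientAddGroup.mk_zero L
    · right; rfl
  set α : G ⧸ L → ℕ := fun x => (part L A x).card with hα
  set β : G ⧸ L → ℕ := fun x => (part L B x).card with hβ
  set γ : G ⧸ L → ℕ := fun x => (part L (rs A B) x).card with hγ
  have F1 : ∀ x y, x ≠ y → 1 ≤ α x → 1 ≤ β y → min p (α x + β y - 1) ≤ γ (x + y) :=
    fun x y hxy hx hy => part_cd L hL A B x y hxy hx hy
  have F2 : ∀ x, 1 ≤ α x → 1 ≤ β x → p ≤ γ (x + x) ∨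
      α x + β x ≤ γ (x + x) + 2 + (if α x = β x then 1 else 0) :=
    fun x hx hy => part_anr L hL hL2 A B x hx hy
  have hαp : ∀ x, α x ≤ p := fun x => card_part_le L A x
  have hβp : ∀ x, β x ≤ p := fun x => card_part_le L B x
  have hα2 : ∀ x, α x + α (x + τ) ≤ p := fun x => part_add_part_le core.two core.A1 x
  have hβ2 : ∀ x, β x + β (x + τ) ≤ p := fun x => part_add_part_le core.two core.B1 x
  have hγ2 : ∀ x, p ≤ γ x + γ (x + τ) := fun x => le_part_add_part core.two core.C1 x
  have hβα : ∀ x, β x ≤ α x := fun x => card_part_mono core.ce.sub x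
  have hQM : ∀ k, 1 ≤ α k → 1 ≤ β k → γ (k + k) < min p (α k + β k - 1) →
      α k + α (k + τ) + (β k + β (k + τ)) ≤ γ (k + k) + γ (k + k + τ) + 3 := by
    intro k hk1 hk2 hk3
    obtain ⟨d, hdA, hdB, hlost, hdk⟩ := exists_lost hL hk1 hk2 hk3
    exact QM core.two hσL (fun M hM => (hsub M hM).scherk) hG hdA hdB
      (core.lost d hdA hdB hlost) hdk
  have hA : A.card = ∑ x, α x := card_eq_sum_part L A
  have hB : B.card = ∑ x, β x := card_eq_sum_part L B
  have hC : (rs A B).card = ∑ x, γ x := card_eq_sum_part L (rs A B)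
  have hF := core.ce.def4
  -- recentering
  have shift : ∀ (φ : G ⧸ L → ℕ) (k : G ⧸ L),
      φ k + ∑ x ∈ univ.erase (0 : G ⧸ L), φ (x + k) = ∑ x, φ x := by
    intro φ k
    rw [← Equiv.sum_comp (Equiv.addRight k) φ, ← Finset.add_sum_erase univ _ (mem_univ (0 : G ⧸ L))]
    simp
  have hkτ : ∀ k : G ⧸ L, k + τ + (k + τ) = k + k := by
    intro k
    have : k + τ + (k + τ) = k + k + (τ + τ) := by abel
    rw [this, hτ2, add_zero]
  by_cases hex : ∃ k, 1 ≤ α k ∧ 1 ≤ β k ∧ γ (k + k) < p ∧ γ (k + k) + 3 = α k + β k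
  · obtain ⟨k, hk1, hk2, hk3, hk4⟩ := hex
    have hk5 := F2 k hk1 hk2
    have hk6 : α k = β k := by
      rcases hk5 with h | h
      · omega
      · by_contra hne
        rw [if_neg hne] at h
        omega
    have hk7 : γ (k + k) + 2 ≤ p := by
      obtain ⟨m, hm⟩ := hLodd
      omega
    have hqm := hQM k hk1 hk2 (by omega)
    have h := hE1 (G ⧸ L) hR τ hτ0 hτ2 huniq p (α k) (fun x => α (x + k)) (fun x => β (x + k))
      (fun x => γ (x + (k + k))) (fun x => hαp _) (fun x => hβp _)
      (fun x => by
        have := hα2 (x + k)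
        have e : x + k + τ = x + τ + k := by abel
        rwa [e] at this)
      (by omega) (by simp only [zero_add]) (by simp only [zero_add]; omega)
      (by simp only [zero_add]; omega) (by omega)
      (fun x y hxy hx hy => by
        have := F1 (x + k) (y + k) (fun h => hxy (add_right_cancel h)) hx hy
        have e : x + k + (y + k) = x + y + (k + k) := by abel
        rw [e] at this
        exact this)
      (fun x _ _ hx hy => by
        have := F2 (x + k) hx hy
        have e : x + k + (x + k) = x + x + (k + k) := by abel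
        rw [e] at this
        show min p (α (x + k) + β (x + k) - 3) ≤ γ (x + x + (k + k))
        rcases this with h | h
        · omega
        · split_ifs at h <;> omega)
      (by
        show α (τ + k) + β (τ + k) ≤ γ (τ + (k + k))
        rw [add_comm τ k, add_comm τ (k + k)]
        omega)
      (fun hx hy => by
        show α (τ + k) + β (τ + k) + 1 ≤ 2 * α k ∨ (α (τ + k) = α k ∧ β (τ + k) = α k)
        have := F2 (τ + k) hx hy
        rw [add_comm τ k, hkτ] at this
        rw [add_comm τ k]
        rcases this with h | h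
        · omega
        · split_ifs at h <;> omega)
    have h1 := shift α k
    have h2 := shift β k
    have h3 := shift γ (k + k)
    rw [sum_add_distrib] at h
    omega
  · push Not at hex
    have hlt' : γ (i + i) < min p (α i + β i - 1) := not_le.1 hlt
    have hi' : 1 ≤ α i := hi
    have hj' : 1 ≤ β i := hj
    have F3 : ∀ x, 1 ≤ α x → 1 ≤ β x → min p (α x + β x - 2) ≤ γ (x + x) := by
      intro x hx hy
      by_contra hlt3
      have h1 := F2 x hx hy
      have h2 := hex x hx hy (by omega)
      rcases h1 with h | h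
      · omega
      · split_ifs at h <;> omega
    have h3 := F3 i hi' hj'
    have hqm := hQM i hi' hj' hlt'
    have F1' : ∀ x y, x ≠ y → 1 ≤ α (x + i) → 1 ≤ β (y + i) →
        min p (α (x + i) + β (y + i) - 1) ≤ γ (x + y + (i + i)) := by
      intro x y hxy hx hy
      have := F1 (x + i) (y + i) (fun h => hxy (add_right_cancel h)) hx hy
      have e : x + i + (y + i) = x + y + (i + i) := by abel
      rwa [e] at this
    have F3' : ∀ x, 1 ≤ α (x + i) → 1 ≤ β (x + i) →
        min p (α (x + i) + β (x + i) - 2) ≤ γ (x + x + (i + i)) := by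
      intro x hx hy
      have := F3 (x + i) hx hy
      have e : x + i + (x + i) = x + x + (i + i) := by abel
      rwa [e] at this
    have hτi : 1 ≤ α (τ + i) → 1 ≤ β (τ + i) → α (τ + i) + β (τ + i) ≤ α i + β i := by
      intro hx hy
      have := F3' τ hx hy
      rw [hτ2, zero_add] at this
      omega
    have s1 := shift α i
    have s2 := shift β i
    have s3 := shift γ (i + i)
    by_cases hgood : 1 ≤ α (τ + i) → 1 ≤ β (τ + i) → α (τ + i) + β (τ + i) + 1 ≤ α i + β i ∨
        (α (τ + i) + β (τ + i) = α i + β i ∧ α i + β i ≤ γ (τ + (i + i)))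
    · have h := hE0 (G ⧸ L) hR τ hτ0 hτ2 huniq p (fun x => α (x + i)) (fun x => β (x + i))
        (fun x => γ (x + (i + i))) (fun x => hαp _) (fun x => hβp _)
        (by simp only [zero_add]; omega) (by simp only [zero_add]; omega)
        (by simp only [zero_add]; omega) (by simp only [zero_add]; omega)
        F1' (fun x _ _ hx hy => F3' x hx hy)
        (fun hx hy => by
          simp only [zero_add]
          exact hgood hx hy)
      rw [sum_add_distrib] at h
      omega
    · push Not at hgood
      obtain ⟨hx, hy, hne, hγτ⟩ := hgood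
      have h4 := hτi hx hy
      have h5 := hγτ (by omega)
      rw [add_comm i τ, add_comm (i + i) τ] at hqm
      have h6 := hα2 i
      have h7 := hβ2 i
      rw [add_comm i τ] at h6 h7
      -- the types at `0` and `τ` agree
      have h8 := F1' 0 τ (fun h => hτ0 h.symm) (by rw [zero_add]; exact hi') hy
      have h9 := F1' τ 0 hτ0 hx (by rw [zero_add]; exact hj')
      rw [zero_add, zero_add] at h8
      rw [add_zero, zero_add] at h9
      have h10 := hγ2 (i + i)
      rw [add_comm (i + i) τ] at h10
      have hQ : RestrictedScherk ((G ⧸ L) ⧸ AddSubgroup.zmultiples τ) :=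
        (hquo.quoQuo L hLbot _).scherk
      have h := hZ (G ⧸ L) τ hτ0 hτ2 huniq hQ p (fun x => α (x + i)) (fun x => β (x + i))
        (fun x => γ (x + (i + i))) (fun x => hβα _)
        (fun x => by
          have := hα2 (x + i)
          have e : x + i + τ = x + τ + i := by abel
          rwa [e] at this)
        (by simp only [zero_add]; omega) (by simp only [zero_add]; omega)
        (by simp only [zero_add]; omega) (by simp only [zero_add]; omega)
        (by simp only [zero_add]; omega) (by simp only [zero_add]; omega)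
        (by simp only [zero_add]; omega) F1' (fun x _ _ hx hy => F3' x hx hy)
        (by
          intro x y hyx hyx' hx1 hx2 hy1 hy2
          simp only [zero_add] at hx1 hx2 hy1 hy2 ⊢
          -- the sets in the two pairs of cosets
          set X := A.filter (fun a => (QuotientAddGroup.mk a : G ⧸ L) = x + i ∨
            (QuotientAddGroup.mk a : G ⧸ L) = x + i + τ) with hX
          set Y := B.filter (fun a => (QuotientAddGroup.mk a : G ⧸ L) = y + i ∨
            (QuotientAddGroup.mk a : G ⧸ L) = y + i + τ) with hY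
          have hXY : X + Y ⊆ rs A B := by
            intro z hz
            rw [mem_add] at hz
            obtain ⟨a, ha, b, hb, rfl⟩ := hz
            rw [hX, mem_filter] at ha
            rw [hY, mem_filter] at hb
            rw [mem_rs]
            refine ⟨a, ha.1, b, hb.1, ?_, rfl⟩
            rintro rfl
            rcases ha.2 with h11 | h11 <;> rcases hb.2 with h12 | h12
            · exact hyx (add_right_cancel (h12.symm.trans h11))
            · apply hyx'
              have h13 : y + i + τ = x + i := h12.symm.trans h11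
              have h14 : y + i + τ + τ = x + i + τ := by rw [h13]
              rw [add_assoc (y + i), hτ2, add_zero] at h14
              have h15 : y + i = x + τ + i := by rw [h14]; abel
              exact add_right_cancel h15
            · apply hyx'
              have h13 : y + i = x + i + τ := h12.symm.trans h11
              have h15 : y + i = x + τ + i := by rw [h13]; abel
              exact add_right_cancel h15
            · exact hyx (add_right_cancel (add_right_cancel (h12.symm.trans h11)))
          have hpX : ∀ z, (z = x + i ∨ z = x + i + τ) → part L X z = part L A z := by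
            intro z hz
            ext a
            rw [mem_part, mem_part, hX, mem_filter]
            constructor
            · rintro ⟨⟨h1, _⟩, h2⟩; exact ⟨h1, h2⟩
            · rintro ⟨h1, h2⟩; exact ⟨⟨h1, by rw [h2]; exact hz⟩, h2⟩
          have hpY : ∀ z, (z = y + i ∨ z = y + i + τ) → part L Y z = part L B z := by
            intro z hz
            ext a
            rw [mem_part, mem_part, hY, mem_filter]
            constructor
            · rintro ⟨⟨h1, _⟩, h2⟩; exact ⟨h1, h2⟩
            · rintro ⟨h1, h2⟩; exact ⟨⟨h1, by rw [h2]; exact hz⟩, h2⟩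
          have h16 := hH6 G L hL hL2 σ core.ne core.two X Y (x + i) (y + i) (α i) (β i)
            (fun a ha hb => core.A1 a (mem_filter.1 ha).1 (mem_filter.1 hb).1)
            (fun a ha hb => core.B1 a (mem_filter.1 ha).1 (mem_filter.1 hb).1)
            hi' hj' (by omega)
            (by rw [hpX _ (Or.inl rfl)]; exact hx1)
            (by
              rw [hpX _ (Or.inr rfl)]
              have e : x + i + τ = x + τ + i := by abel
              rw [e]; exact hx2)
            (by rw [hpY _ (Or.inl rfl)]; exact hy1)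
            (by
              rw [hpY _ (Or.inr rfl)]
              have e : y + i + τ = y + τ + i := by abel
              rw [e]; exact hy2)
          have e1 : x + i + (y + i) = x + y + (i + i) := by abel
          have e2 : x + i + (y + i) + τ = x + y + τ + (i + i) := by abel
          rw [← hτ, e2, e1] at h16
          rcases h16 with h16 | h16
          · left; exact h16.trans (card_part_mono hXY _)
          · right; exact h16.trans (card_part_mono hXY _))
      -- splitting off `τ`
      have hτmem : τ ∈ univ.erase (0 : G ⧸ L) := mem_erase.2 ⟨hτ0, mem_univ _⟩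
      have t1 := Finset.add_sum_erase (univ.erase (0 : G ⧸ L)) (fun x => α (x + i)) hτmem
      have t2 := Finset.add_sum_erase (univ.erase (0 : G ⧸ L)) (fun x => β (x + i)) hτmem
      have t3 := Finset.add_sum_erase (univ.erase (0 : G ⧸ L)) (fun x => γ (x + (i + i))) hτmem
      rw [sum_add_distrib] at h
      omega

/-- Block LCaseE, from the version without the additional hypothesis. -/
theorem stmt_LCaseE (hE1 : Stmt_LvE1.{u}) (hE0 : Stmt_LvE0.{u}) (hZ : Stmt_LvZ.{u})
    (hH6 : Stmt_H6.{u}) : Stmt_LCaseE.{u} :=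
  stmt_LCaseE_p (fun R _ _ _ hR τ h1 h2 h3 P n α β γ h4 h5 _ h6 => hE1 R hR τ h1 h2 h3 P n α β γ
    h4 h5 h6) hE0 hZ hH6

end Pool.Agent.Work.MP_59976d_co
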